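import Mathlib

set_option autoImplicit false

namespace Pool.Agent.Results.MP_6a18d8_co.NoCIST

/-- The face permutation of a rotation system: from a dart `u → v` go to the dart that follows
`v → u` in the cyclic order around `v`. -/
def facePerm {V : Type} (G : SimpleGraph V) (rot : Equiv.Perm G.Dart) : Equiv.Perm G.Dart :=
  (Function.Involutive.toPerm _ SimpleGraph.Dart.symm_involutive).trans rot

/-- The faces of a rotation system: the orbits of the face permutation. -/
abbrev FaceOf {V : Type} (G : SimpleGraph V) (rot : Equiv.Perm G.Dart) : Type :=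
  Quotient (Equiv.Perm.SameCycle.setoid (facePerm G rot))

/-- A connected plane graph: a connected simple graph with a fixed embedding in the plane, given
combinatorially by a rotation system of genus zero (Euler's formula) and its outer face. -/
structure PlaneGraph (V : Type) where
  /-- the underlying simple graph -/
  graph : SimpleGraph V
  /-- `rot d` is the dart following `d` in the cyclic order around the initial vertex of `d` -/
  rot : Equiv.Perm graph.Dart
  rot_fst : ∀ d, (rot d).fst = d.fst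
  /-- the darts at a vertex form a single cycle of the rotation -/
  rot_cycle : ∀ d d' : graph.Dart, d.fst = d'.fst → rot.SameCycle d d'
  connected : graph.Connected
  /-- the genus is zero -/
  euler : (Nat.card V : ℤ) - Nat.card graph.edgeSet + Nat.card (FaceOf graph rot) = 2
  /-- the outer (unbounded) face -/
  outer : FaceOf graph rot

namespace PlaneGraph

variable {V : Type} (M : PlaneGraph V)

/-- The faces of a plane graph. -/
abbrev Face : Type := FaceOf M.graph M.rot

/-- The face to which a dart belongs. -/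
def faceOf (d : M.graph.Dart) : M.Face := Quotient.mk _ d

/-- The vertex `v` lies on (the boundary of) the face `f`. -/
def OnFace (v : V) (f : M.Face) : Prop := ∃ d : M.graph.Dart, d.fst = v ∧ M.faceOf d = f

/-- Every bounded face is a triangle. -/
def IsTriangulatedDisc : Prop :=
  ∀ f : M.Face, f ≠ M.outer → Nat.card {d : M.graph.Dart // M.faceOf d = f} = 3

/-- After the vertices of `S` are deleted (with their edges), all faces around a deleted vertex
merge into one face; these are the faces of `M` contained in the outer face of `M - S`. -/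
inductive InOuterAfter (S : Set V) : M.Face → Prop
  | outer : InOuterAfter S M.outer
  | step (f f' : M.Face) (v : V) : InOuterAfter S f → v ∈ S → M.OnFace v f → M.OnFace v f' →
      InOuterAfter S f'

/-- The vertices on the outer face of the plane graph obtained by deleting `S`. -/
def outerVertices (S : Set V) : Set V :=
  {w | w ∉ S ∧ ∃ f, M.InOuterAfter S f ∧ M.OnFace w f}

/-- The vertices on the outer face. -/
def L3 : Set V := M.outerVertices ∅

/-- The vertices on the outer face after deleting `L3`. -/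
def L2 : Set V := M.outerVertices M.L3

/-- The vertices on the outer face after also deleting `L2`. -/
def L1 : Set V := M.outerVertices (M.L3 ∪ M.L2)

/-- The embedding is 3-outerplanar. -/
def IsThreeOuterplanar : Prop := M.L1 ∪ M.L2 ∪ M.L3 = Set.univ

end PlaneGraph

/-- A graph is 3-connected: it has at least four vertices and stays connected after the deletion
of any at most two vertices. -/
def IsThreeConnected {V : Type} (G : SimpleGraph V) : Prop :=
  4 ≤ Nat.card V ∧ ∀ S : Finset V, S.card ≤ 2 → (G.induce {v | v ∉ S}).Connected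

/-- Two `u`-`v` walks (in possibly different graphs) are openly disjoint: no common edge and no
common vertex other than `u` and `v`. -/
def OpenlyDisjoint {V : Type} {G₁ G₂ : SimpleGraph V} {u v : V} (p : G₁.Walk u v)
    (q : G₂.Walk u v) : Prop :=
  (∀ e, e ∈ p.edges → e ∉ q.edges) ∧ ∀ x, x ∈ p.support → x ∈ q.support → x = u ∨ x = v

/-- `T₁` and `T₂` are completely independent spanning trees of `G`. -/
def AreCISTs {V : Type} (G T₁ T₂ : SimpleGraph V) : Prop :=
  T₁ ≤ G ∧ T₂ ≤ G ∧ T₁.IsTree ∧ T₂.IsTree ∧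
    ∀ u v : V, u ≠ v → ∀ (p : T₁.Walk u v) (q : T₂.Walk u v), p.IsPath → q.IsPath →
      OpenlyDisjoint p q

section cists

variable {V : Type}

/-- `v` is an inner vertex of `T`. -/
def Inner (T : SimpleGraph V) (v : V) : Prop := ∃ x y, x ≠ y ∧ T.Adj v x ∧ T.Adj v y

/-- `a` and `b` are joined by a walk of `T` avoiding `v`. -/
def Av (T : SimpleGraph V) (v a b : V) : Prop := ∃ p : T.Walk a b, v ∉ p.support

theorem Av.symm {T : SimpleGraph V} {v a b : V} (h : Av T v a b) : Av T v b a := by
  obtain ⟨p, hp⟩ := h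
  exact ⟨p.reverse, by simpa using hp⟩

theorem Av.trans {T : SimpleGraph V} {v a b c : V} (h : Av T v a b) (h' : Av T v b c) :
    Av T v a c := by
  obtain ⟨p, hp⟩ := h
  obtain ⟨q, hq⟩ := h'
  refine ⟨p.append q, ?_⟩
  rw [SimpleGraph.Walk.mem_support_append_iff]
  tauto

theorem not_av {T : SimpleGraph V} (hT : T.IsAcyclic) {v x y : V} (hxy : x ≠ y)
    (hx : T.Adj v x) (hy : T.Adj v y) : ¬ Av T v x y := by
  classical
  rintro ⟨p, hp⟩
  have hvx : v ≠ x := hx.ne
  have hvy : v ≠ y := hy.ne
  let q : T.Walk x y := SimpleGraph.Walk.cons hx.symm (SimpleGraph.Walk.cons hy SimpleGraph.Walk.nil)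
  have hq : q.IsPath := by
    simp [q, SimpleGraph.Walk.cons_isPath_iff, hxy, hvy, hvx.symm]
  have huniq := hT.path_unique (p.toPath) ⟨q, hq⟩
  have hsup : v ∈ (p.toPath : T.Walk x y).support := by
    rw [huniq]
    simp [q]
  exact hp (SimpleGraph.Walk.support_bypass_subset_support p hsup)

theorem not_both {G T₁ T₂ : SimpleGraph V} (h : AreCISTs G T₁ T₂) (v : V) (h1 : Inner T₁ v)
    (h2 : Inner T₂ v) : False := by
  obtain ⟨hG1, hG2, ht1, ht2, hd⟩ := h
  obtain ⟨x1, y1, hxy1, hx1, hy1⟩ := h1
  obtain ⟨x2, y2, hxy2, hx2, hy2⟩ := h2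
  have n1 := not_av ht1.isAcyclic hxy1 hx1 hy1
  have n2 := not_av ht2.isAcyclic hxy2 hx2 hy2
  -- a pair separated by `v` in both trees gives a contradiction
  have main : ∀ u w : V, u ≠ v → w ≠ v → ¬ Av T₁ v u w → ¬ Av T₂ v u w → False := by
    intro u w hu hw m1 m2
    have huw : u ≠ w := by
      rintro rfl
      exact m1 ⟨SimpleGraph.Walk.nil, by simpa using Ne.symm hu⟩
    obtain ⟨p, hp⟩ := ht1.connected.exists_isPath u w
    obtain ⟨q, hq⟩ := ht2.connected.exists_isPath u w
    have hvp : v ∈ p.support := by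
      by_contra hc
      exact m1 ⟨p, hc⟩
    have hvq : v ∈ q.support := by
      by_contra hc
      exact m2 ⟨q, hc⟩
    rcases (hd u w huw p q hp hq).2 v hvp hvq with h | h
    · exact hu h.symm
    · exact hw h.symm
  have e1 : x1 ≠ v := hx1.ne'
  have e2 : y1 ≠ v := hy1.ne'
  by_cases hA : Av T₂ v x1 y1
  · -- some `c` among `x2, y2` is separated from `x1` in `T₂`
    have hc : ∃ c, c ≠ v ∧ ¬ Av T₂ v c x1 := by
      by_cases hB : Av T₂ v x2 x1
      · refine ⟨y2, hy2.ne', ?_⟩
        intro hC
        exact n2 (hB.trans hC.symm)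
      · exact ⟨x2, hx2.ne', hB⟩
    obtain ⟨c, hcv, hc1⟩ := hc
    have hc2 : ¬ Av T₂ v c y1 := fun hC => hc1 (hC.trans hA.symm)
    by_cases hD : Av T₁ v c x1
    · refine main c y1 hcv e2 ?_ hc2
      intro hE
      exact n1 (hD.symm.trans hE)
    · exact main c x1 hcv e1 hD hc1
  · exact main x1 y1 e1 e2 n1 hA

/-- In a spanning tree, a vertex that is not adjacent to everything has an inner neighbour. -/
theorem exists_inner_nbr {G T : SimpleGraph V} (hTG : T ≤ G) (hc : T.Connected) (v x : V)
    (hx : x ≠ v) (hnx : ¬ G.Adj v x) : ∃ w, T.Adj v w ∧ Inner T w := by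
  obtain ⟨p, hp⟩ := hc.exists_isPath v x
  cases p with
  | nil => exact absurd rfl hx
  | cons h q =>
    rename_i w
    cases q with
    | nil => exact absurd (hTG h) hnx
    | cons h' r =>
      rename_i z
      refine ⟨w, h, v, z, ?_, h.symm, h'⟩
      rintro rfl
      rw [SimpleGraph.Walk.cons_isPath_iff] at hp
      apply hp.2
      simp

/-- Closure along paths of a tree. -/
theorem closure_path {T : SimpleGraph V} (C S : V → Prop) (hin : ∀ x, Inner T x → C x)
    (hS : ∀ x y, T.Adj x y → C x → C y → S x → S y) :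
    ∀ (a b : V) (p : T.Walk a b), p.IsPath → C a → C b → S a → S b := by
  intro a b p
  induction p with
  | nil => intro _ _ _ h; exact h
  | cons h q ih =>
    rename_i a w b
    intro hp ha hb hSa
    rw [SimpleGraph.Walk.cons_isPath_iff] at hp
    have hw : C w := by
      cases q with
      | nil => exact hb
      | cons h' r =>
        rename_i z
        refine hin w ⟨a, z, ?_, h.symm, h'⟩
        rintro rfl
        apply hp.2
        simp
    exact ih hp.1 hw hb (hS _ _ h ha hw hSa)

theorem cist_colour {G T₁ T₂ : SimpleGraph V} (h : AreCISTs G T₁ T₂) : ∃ c : V → Prop,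
    (∀ v x, x ≠ v → ¬ G.Adj v x → (∃ w, G.Adj v w ∧ c w) ∧ ∃ w, G.Adj v w ∧ ¬ c w) ∧
    (∀ S : V → Prop, (∀ x y, G.Adj x y → (c x ↔ c y) → S x → S y) →
      ∀ a b, (c a ↔ c b) → S a → S b) := by
  refine ⟨Inner T₁, ?_, ?_⟩
  · intro v x hx hnx
    constructor
    · obtain ⟨w, hw1, hw2⟩ := exists_inner_nbr h.1 h.2.2.1.connected v x hx hnx
      exact ⟨w, h.1 hw1, hw2⟩
    · obtain ⟨w, hw1, hw2⟩ := exists_inner_nbr h.2.1 h.2.2.2.1.connected v x hx hnx
      exact ⟨w, h.2.1 hw1, fun h1 => not_both h w h1 hw2⟩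
  · intro S hS a b hab hSa
    by_cases ha : Inner T₁ a
    · have hb : Inner T₁ b := hab.1 ha
      obtain ⟨p, hp⟩ := h.2.2.1.connected.exists_isPath a b
      refine closure_path (T := T₁) (Inner T₁) S (fun x hx => hx) ?_ a b p hp ha hb hSa
      intro x y hxy hx hy
      exact hS x y (h.1 hxy) ⟨fun _ => hy, fun _ => hx⟩
    · have hb : ¬ Inner T₁ b := fun hb => ha (hab.2 hb)
      obtain ⟨p, hp⟩ := h.2.2.2.1.connected.exists_isPath a b
      refine closure_path (T := T₂) (fun x => ¬ Inner T₁ x) S
        (fun x hx h1 => not_both h x h1 hx) ?_ a b p hp ha hb hSa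
      intro x y hxy hx hy
      exact hS x y (h.2.1 hxy) ⟨fun h1 => absurd h1 hx, fun h1 => absurd h1 hy⟩

end cists

/-! ### The concrete plane graph -/

/-- Cyclic lists of neighbours. Vertices 0,...,5 are the outer hexagon, 6,...,11 the inner
hexagon, 12,...,20 have degree three. -/
def tab : Fin 21 → List (Fin 21) :=
  ![[1, 5, 17, 6, 7, 12],
    [0, 12, 7, 8, 13, 2],
    [1, 13, 8, 9, 14, 3],
    [2, 14, 9, 10, 15, 4],
    [3, 15, 10, 11, 16, 5],
    [0, 4, 16, 11, 6, 17],
    [0, 17, 5, 11, 20, 10, 8, 18, 7],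
    [0, 6, 18, 8, 1, 12],
    [1, 7, 18, 6, 10, 19, 9, 2, 13],
    [2, 8, 19, 10, 3, 14],
    [3, 9, 19, 8, 6, 20, 11, 4, 15],
    [4, 10, 20, 6, 5, 16],
    [0, 7, 1],
    [1, 8, 2],
    [2, 9, 3],
    [3, 10, 4],
    [4, 11, 5],
    [0, 5, 6],
    [6, 8, 7],
    [8, 10, 9],
    [6, 11, 10]]

/-- The entry following `v` in a list, with default `h`. -/
def nextAux (h : Fin 21) : List (Fin 21) → Fin 21 → Fin 21
  | [], _ => h
  | [_], _ => h
  | a :: b :: l, v => if a = v then b else nextAux h (b :: l) v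

/-- The neighbour following `v` in the cyclic order around `u`. -/
def nxt (u v : Fin 21) : Fin 21 := nextAux ((tab u).headD 0) (tab u) v

theorem adj_symm : ∀ u v : Fin 21, v ∈ tab u → u ∈ tab v := by decide +kernel
theorem adj_irrefl : ∀ u : Fin 21, u ∉ tab u := by decide +kernel
theorem nxt_adj : ∀ u v : Fin 21, v ∈ tab u → nxt u v ∈ tab u := by decide +kernel
theorem nxt_inj : ∀ u v w : Fin 21, v ∈ tab u → w ∈ tab u → nxt u v = nxt u w → v = w := by
  decide +kernel
theorem nxt_cyc : ∀ u v w : Fin 21, v ∈ tab u → w ∈ tab u →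
    ∃ k : Fin 12, (nxt u)^[k.val] v = w := by decide +kernel

/-- The graph. -/
def G : SimpleGraph (Fin 21) where
  Adj u v := v ∈ tab u
  symm := ⟨fun u v h => adj_symm u v h⟩
  loopless := ⟨fun u h => adj_irrefl u h⟩

instance : DecidableRel G.Adj := fun u v => inferInstanceAs (Decidable (v ∈ tab u))

/-- The rotation as a function. -/
def rotFun (d : G.Dart) : G.Dart := ⟨(d.fst, nxt d.fst d.snd), nxt_adj _ _ d.adj⟩

theorem rotFun_inj : Function.Injective rotFun := by
  intro d d' h
  have h1 : (d.fst, nxt d.fst d.snd) = (d'.fst, nxt d'.fst d'.snd) :=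
    congrArg SimpleGraph.Dart.toProd h
  have h2 : d.fst = d'.fst := (Prod.mk.inj h1).1
  have h3 : nxt d.fst d.snd = nxt d'.fst d'.snd := (Prod.mk.inj h1).2
  apply SimpleGraph.Dart.ext
  apply Prod.ext h2
  rw [← h2] at h3
  exact nxt_inj _ _ _ d.adj (by rw [h2]; exact d'.adj) h3

/-- The rotation. -/
noncomputable def rot : Equiv.Perm G.Dart :=
  Equiv.ofBijective rotFun (Finite.injective_iff_bijective.mp rotFun_inj)

theorem rot_apply (d : G.Dart) : rot d = rotFun d := rfl

theorem rot_pow_fst (k : ℕ) (d : G.Dart) : ((rot ^ k) d).fst = d.fst ∧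
    ((rot ^ k) d).snd = (nxt d.fst)^[k] d.snd := by
  induction k with
  | zero => exact ⟨rfl, rfl⟩
  | succ k ih =>
    rw [pow_succ', Equiv.Perm.mul_apply, rot_apply]
    refine ⟨ih.1, ?_⟩
    rw [Function.iterate_succ_apply', ← ih.2]
    change nxt ((rot ^ k) d).fst ((rot ^ k) d).snd = _
    rw [ih.1]

theorem rot_sameCycle (d d' : G.Dart) (h : d.fst = d'.fst) : rot.SameCycle d d' := by
  obtain ⟨k, hk⟩ := nxt_cyc d.fst d.snd d'.snd d.adj (by rw [h]; exact d'.adj)
  refine ⟨(k.val : ℤ), ?_⟩
  rw [zpow_natCast]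
  apply SimpleGraph.Dart.ext
  apply Prod.ext
  · exact (rot_pow_fst k.val d).1.trans h
  · exact (rot_pow_fst k.val d).2.trans hk

/-- One step of the face permutation, on pairs. -/
def ph (p : Fin 21 × Fin 21) : Fin 21 × Fin 21 := (p.2, nxt p.2 p.1)

theorem facePerm_toProd (d : G.Dart) : (facePerm G rot d).toProd = ph d.toProd := rfl

theorem facePerm_pow (k : ℕ) (d : G.Dart) : ((facePerm G rot ^ k) d).toProd = ph^[k] d.toProd := by
  induction k with
  | zero => rfl
  | succ k ih =>
    rw [pow_succ', Equiv.Perm.mul_apply, facePerm_toProd, ih, Function.iterate_succ_apply']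

/-- A code of a pair. -/
def code (p : Fin 21 × Fin 21) : ℕ := 21 * p.1.val + p.2.val

theorem code_inj (p q : Fin 21 × Fin 21) (h : code p = code q) : p = q := by
  obtain ⟨a, b⟩ := p
  obtain ⟨c, d⟩ := q
  simp only [code] at h
  have ha := a.isLt
  have hb := b.isLt
  have hc := c.isLt
  have hd := d.isLt
  have h1 : a.val = c.val := by omega
  have h2 : b.val = d.val := by omega
  exact Prod.ext (Fin.ext h1) (Fin.ext h2)

/-- The code of a face: the least code of a dart in it. -/
def fc (p : Fin 21 × Fin 21) : ℕ :=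
  min (code p) (min (code (ph p)) (min (code (ph^[2] p)) (min (code (ph^[3] p))
    (min (code (ph^[4] p)) (code (ph^[5] p))))))

theorem fc_inv : ∀ u v : Fin 21, v ∈ tab u → fc (ph (u, v)) = fc (u, v) := by decide +kernel
theorem fc_att : ∀ u v : Fin 21, v ∈ tab u → ∃ k : Fin 6, fc (u, v) = code (ph^[k.val] (u, v)) := by
  decide +kernel

theorem fc_facePerm (d : G.Dart) : fc (facePerm G rot d).toProd = fc d.toProd :=
  fc_inv d.fst d.snd d.adj

theorem fc_pow (k : ℕ) (d : G.Dart) : fc ((facePerm G rot ^ k) d).toProd = fc d.toProd := by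
  induction k with
  | zero => rfl
  | succ k ih => rw [pow_succ', Equiv.Perm.mul_apply, fc_facePerm, ih]

theorem fc_same (d d' : G.Dart) (h : (facePerm G rot).SameCycle d d') :
    fc d.toProd = fc d'.toProd := by
  obtain ⟨k, -, hk⟩ := h.exists_pow_eq'
  rw [← hk, fc_pow]

theorem same_of_fc (d d' : G.Dart) (h : fc d.toProd = fc d'.toProd) :
    (facePerm G rot).SameCycle d d' := by
  obtain ⟨k, hk⟩ := fc_att d.fst d.snd d.adj
  obtain ⟨k', hk'⟩ := fc_att d'.fst d'.snd d'.adj
  have h1 : ph^[k.val] d.toProd = ph^[k'.val] d'.toProd := by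
    apply code_inj
    exact hk.symm.trans (h.trans hk')
  rw [← facePerm_pow, ← facePerm_pow] at h1
  have h2 : (facePerm G rot ^ k.val) d = (facePerm G rot ^ k'.val) d' :=
    SimpleGraph.Dart.ext _ _ h1
  have h3 : (facePerm G rot).SameCycle d ((facePerm G rot ^ k.val) d) := ⟨k.val, by simp⟩
  have h4 : (facePerm G rot).SameCycle d' ((facePerm G rot ^ k'.val) d') := ⟨k'.val, by simp⟩
  rw [h2] at h3
  exact h3.trans h4.symm

/-- The code of a face. -/
noncomputable def faceCode : FaceOf G rot → ℕ := Quotient.lift (fun d => fc d.toProd) fc_same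

theorem faceCode_inj : Function.Injective faceCode := by
  intro a b
  refine Quotient.inductionOn₂ a b ?_
  intro d d' h
  exact Quotient.sound (same_of_fc d d' h)

/-- All codes of faces. -/
def codes : Finset ℕ := ((Finset.univ : Finset (Fin 21 × Fin 21)).filter
  (fun p => p.2 ∈ tab p.1)).image fc

theorem codes_card : codes.card = 35 := by decide +kernel

theorem range_faceCode : Set.range faceCode = (codes : Set ℕ) := by
  ext x
  constructor
  · rintro ⟨f, rfl⟩
    refine Quotient.inductionOn f ?_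
    intro d
    simp only [codes, Finset.coe_image, Finset.coe_filter, Finset.mem_univ, true_and]
    exact ⟨d.toProd, d.adj, rfl⟩
  · intro hx
    simp only [codes, Finset.coe_image, Finset.coe_filter, Finset.mem_univ, true_and] at hx
    obtain ⟨p, hp, rfl⟩ := hx
    exact ⟨Quotient.mk _ ⟨p, hp⟩, rfl⟩

theorem card_face : Nat.card (FaceOf G rot) = 35 := by
  have h1 : Nat.card (FaceOf G rot) = Nat.card (Set.range faceCode) :=
    Nat.card_congr (Equiv.ofInjective _ faceCode_inj)
  rw [h1, range_faceCode]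
  simp only [Nat.card_eq_fintype_card, Fintype.card_coe, Finset.coe_sort_coe]
  exact codes_card

theorem card_edge : Nat.card G.edgeSet = 54 := by
  rw [Nat.card_eq_fintype_card, ← SimpleGraph.edgeFinset_card]
  decide +kernel

/-! ### Connectivity -/

/-- Neighbourhoods as bit masks. -/
def am (u : ℕ) : ℕ :=
  [135394, 12677, 25354, 50708, 101416, 198737, 1445281, 266563, 796358, 541964, 1608536, 1115248,
    131, 262, 524, 1048, 2096, 97, 448, 1792, 3136].getD u 0

theorem am_spec : ∀ u v : Fin 21, (am u.val).testBit v.val = true ↔ v ∈ tab u := by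
  decide +kernel

theorem am_lt : ∀ u : Fin 21, am u.val < 2 ^ 21 := by decide +kernel

/-- One round of exploration of the vertices reachable from `S` without passing through `ban`. -/
def grow (ban S : ℕ) : ℕ :=
  (List.range 21).foldl (fun acc v => if S.testBit v && !ban.testBit v then acc ||| am v else acc) S

theorem grow_sound (P : Fin 21 → Prop) (ban S : ℕ)
    (hP : ∀ u v : Fin 21, P u → ban.testBit u.val = false → v ∈ tab u → P v)
    (hS : ∀ v : Fin 21, S.testBit v.val = true → P v) :
    ∀ v : Fin 21, (grow ban S).testBit v.val = true → P v := by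
  have key : ∀ (l : List ℕ), (∀ x ∈ l, x < 21) → ∀ acc : ℕ,
      (∀ v : Fin 21, acc.testBit v.val = true → P v) → ∀ v : Fin 21,
      (l.foldl (fun acc v => if S.testBit v && !ban.testBit v then acc ||| am v else acc)
        acc).testBit v.val = true → P v := by
    intro l
    induction l with
    | nil => intro _ acc h; exact h
    | cons x l ih =>
      intro hl acc hacc
      rw [List.foldl_cons]
      apply ih (fun y hy => hl y (List.mem_cons_of_mem _ hy))
      intro v hv
      by_cases hx : (S.testBit x && !ban.testBit x) = true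
      · rw [if_pos hx, Nat.testBit_or, Bool.or_eq_true] at hv
        rcases hv with hv | hv
        · exact hacc v hv
        · have hx21 : x < 21 := hl x List.mem_cons_self
          rw [Bool.and_eq_true] at hx
          have h1 : P ⟨x, hx21⟩ := hS ⟨x, hx21⟩ hx.1
          refine hP ⟨x, hx21⟩ v h1 ?_ ?_
          · simpa using hx.2
          · exact (am_spec ⟨x, hx21⟩ v).1 hv
      · rw [if_neg hx] at hv
        exact hacc v hv
  exact key (List.range 21) (fun x hx => List.mem_range.1 hx) S hS

theorem grow_iter_sound (P : Fin 21 → Prop) (ban : ℕ)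
    (hP : ∀ u v : Fin 21, P u → ban.testBit u.val = false → v ∈ tab u → P v) (k : ℕ) :
    ∀ S : ℕ, (∀ v : Fin 21, S.testBit v.val = true → P v) →
    ∀ v : Fin 21, ((grow ban)^[k] S).testBit v.val = true → P v := by
  induction k with
  | zero => intro S h; exact h
  | succ k ih =>
    intro S h
    rw [Function.iterate_succ_apply]
    exact ih _ (grow_sound P ban S hP h)

/-- The mask of a pair of deleted vertices. -/
def ban2 (a b : ℕ) : ℕ := 2 ^ a ||| 2 ^ b

/-- A vertex that is not deleted. -/
def root (ban : ℕ) : ℕ := if ban.testBit 0 then (if ban.testBit 1 then 2 else 1) else 0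

theorem conn_check : ∀ a b : Fin 22, (ban2 a.val b.val).testBit (root (ban2 a.val b.val)) = false ∧
    ∀ v : Fin 21, (ban2 a.val b.val).testBit v.val = false →
      ((grow (ban2 a.val b.val))^[6] (2 ^ (root (ban2 a.val b.val)))).testBit v.val = true := by
  decide +kernel

theorem root_lt (ban : ℕ) : root ban < 21 := by
  unfold root
  split_ifs <;> norm_num

theorem induce_connected (s : Set (Fin 21)) (a b : Fin 22)
    (hs : ∀ v : Fin 21, v ∈ s ↔ (ban2 a.val b.val).testBit v.val = false) :
    (G.induce s).Connected := by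
  obtain ⟨h1, h2⟩ := conn_check a b
  set ban := ban2 a.val b.val with hban
  let r : Fin 21 := ⟨root ban, root_lt ban⟩
  have hr : r ∈ s := (hs r).2 h1
  have key : ∀ v : Fin 21, ∀ hv : v ∈ s, (G.induce s).Reachable ⟨r, hr⟩ ⟨v, hv⟩ := by
    intro v hv
    refine grow_iter_sound (fun v => ∀ hv : v ∈ s, (G.induce s).Reachable ⟨r, hr⟩ ⟨v, hv⟩) ban
      ?_ 6 (2 ^ (root ban)) ?_ v (h2 v ((hs v).1 hv)) hv
    · intro u w hu hbu hw hws
      have hus : u ∈ s := (hs u).2 hbu
      refine (hu hus).trans (SimpleGraph.Adj.reachable ?_)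
      exact hw
    · intro w hw hws
      have hwr : w = r := by
        apply Fin.ext
        rw [Nat.testBit_two_pow] at hw
        exact (of_decide_eq_true hw).symm
      subst hwr
      exact SimpleGraph.Reachable.refl _
  have : Nonempty s := ⟨⟨r, hr⟩⟩
  refine SimpleGraph.Connected.mk ?_
  intro x y
  exact (key x.1 x.2).symm.trans (key y.1 y.2)

theorem ban2_iff (a b : ℕ) (v : ℕ) : (ban2 a b).testBit v = false ↔ ¬ (v = a ∨ v = b) := by
  unfold ban2
  rw [Nat.testBit_or, Nat.testBit_two_pow, Nat.testBit_two_pow, Bool.or_eq_false_iff,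
    decide_eq_false_iff_not, decide_eq_false_iff_not, not_or]
  constructor
  · rintro ⟨h1, h2⟩
    exact ⟨fun h => h1 h.symm, fun h => h2 h.symm⟩
  · rintro ⟨h1, h2⟩
    exact ⟨fun h => h1 h.symm, fun h => h2 h.symm⟩

theorem threeConnected : IsThreeConnected G := by
  refine ⟨?_, ?_⟩
  · rw [Nat.card_eq_fintype_card, Fintype.card_fin]
    norm_num
  · intro S hS
    obtain ⟨a, b, hab⟩ : ∃ a b : Fin 22, ∀ v : Fin 21, v ∈ S ↔ (v.val = a.val ∨ v.val = b.val) := by
      rcases Nat.lt_or_ge S.card 1 with h0 | h0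
      · have h : S = ∅ := Finset.card_eq_zero.1 (by omega)
        refine ⟨21, 21, ?_⟩
        intro v
        have := v.isLt
        rw [h]
        constructor
        · intro h'
          exact absurd h' (Finset.notMem_empty v)
        · intro h'
          exfalso
          have h21 : (21 : Fin 22).val = 21 := rfl
          rw [h21] at h'
          omega
      · rcases Nat.lt_or_ge S.card 2 with h1 | h1
        · obtain ⟨a, ha⟩ := Finset.card_eq_one.1 (show S.card = 1 by omega)
          refine ⟨a.castSucc, a.castSucc, ?_⟩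
          intro v
          rw [ha, Finset.mem_singleton, Fin.val_castSucc, or_self, Fin.ext_iff]
        · obtain ⟨a, b, -, hab⟩ := Finset.card_eq_two.1 (show S.card = 2 by omega)
          refine ⟨a.castSucc, b.castSucc, ?_⟩
          intro v
          rw [hab, Finset.mem_insert, Finset.mem_singleton, Fin.val_castSucc, Fin.val_castSucc,
            Fin.ext_iff, Fin.ext_iff]
    apply induce_connected _ a b
    intro v
    rw [ban2_iff, ← hab v]
    rfl

theorem G_connected : G.Connected := by
  have h := induce_connected Set.univ 21 21 (by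
    intro v
    rw [ban2_iff]
    have := v.isLt
    have h21 : (21 : Fin 22).val = 21 := rfl
    simp only [Set.mem_univ, true_iff, h21]
    omega)
  have : Nonempty (Fin 21) := ⟨0⟩
  refine SimpleGraph.Connected.mk ?_
  intro x y
  have h2 := h.preconnected ⟨x, Set.mem_univ x⟩ ⟨y, Set.mem_univ y⟩
  exact h2.map (SimpleGraph.Embedding.induce (G := G) Set.univ).toHom

/-! ### The plane graph -/

/-- A dart on the outer face. -/
def d0 : G.Dart := ⟨((0 : Fin 21), (5 : Fin 21)), by change (5 : Fin 21) ∈ tab 0; decide⟩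

/-- The plane graph. -/
noncomputable def M : PlaneGraph (Fin 21) where
  graph := G
  rot := rot
  rot_fst := fun _ => rfl
  rot_cycle := rot_sameCycle
  connected := G_connected
  euler := by
    rw [card_face, card_edge, Nat.card_eq_fintype_card, Fintype.card_fin]
    norm_num
  outer := Quotient.mk _ d0

theorem faceOf_eq_iff (d d' : G.Dart) :
    M.faceOf d = M.faceOf d' ↔ fc d.toProd = fc d'.toProd := by
  constructor
  · intro h
    exact fc_same d d' (Quotient.exact h)
  · intro h
    exact Quotient.sound (same_of_fc d d' h)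

theorem tri_check : ∀ u v : Fin 21, v ∈ tab u → fc (u, v) ≠ fc (0, 5) →
    ph^[3] (u, v) = (u, v) ∧ (u, v) ≠ ph (u, v) ∧ (u, v) ≠ ph (ph (u, v)) ∧
      ph (u, v) ≠ ph (ph (u, v)) := by decide +kernel

theorem pow_three_mul (d : G.Dart) (hp3 : (facePerm G rot ^ 3) d = d) (j : ℕ) :
    ((facePerm G rot ^ 3) ^ j) d = d := by
  induction j with
  | zero => rfl
  | succ j ih => rw [pow_succ, Equiv.Perm.mul_apply, hp3, ih]

theorem tri_face (d : G.Dart) (hne : fc d.toProd ≠ fc (0, 5)) :
    Set.ncard {x : G.Dart | M.faceOf x = M.faceOf d} = 3 := by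
  obtain ⟨h3, h01, h02, h12⟩ := tri_check d.fst d.snd d.adj hne
  have hp3 : (facePerm G rot ^ 3) d = d := by
    apply SimpleGraph.Dart.ext
    rw [facePerm_pow]
    exact h3
  rw [Set.ncard_eq_three]
  refine ⟨d, facePerm G rot d, facePerm G rot (facePerm G rot d), ?_, ?_, ?_, ?_⟩
  · intro h
    exact h01 (congrArg SimpleGraph.Dart.toProd h)
  · intro h
    exact h02 (congrArg SimpleGraph.Dart.toProd h)
  · intro h
    exact h12 (congrArg SimpleGraph.Dart.toProd h)
  · ext x
    rw [Set.mem_insert_iff, Set.mem_insert_iff, Set.mem_singleton_iff]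
    constructor
    · intro hx
      have hs : (facePerm G rot).SameCycle d x :=
        (Quotient.exact hx : (facePerm G rot).SameCycle x d).symm
      obtain ⟨k, -, hk⟩ := hs.exists_pow_eq'
      have hmod : (facePerm G rot ^ k) d = (facePerm G rot ^ (k % 3)) d := by
        conv_lhs => rw [← Nat.mod_add_div k 3, pow_add, Equiv.Perm.mul_apply, pow_mul,
          pow_three_mul d hp3]
      rw [hmod] at hk
      have hlt : k % 3 < 3 := Nat.mod_lt _ (by norm_num)
      rcases (by omega : k % 3 = 0 ∨ k % 3 = 1 ∨ k % 3 = 2) with h | h | h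
      · rw [h] at hk
        left
        exact hk.symm
      · rw [h, pow_one] at hk
        right; left
        exact hk.symm
      · rw [h] at hk
        right; right
        rw [← hk, pow_two, Equiv.Perm.mul_apply]
    · rintro (h | h | h)
      · rw [h]
        rfl
      · rw [h]
        exact (faceOf_eq_iff _ _).2 (fc_facePerm d)
      · rw [h]
        exact (faceOf_eq_iff _ _).2 ((fc_facePerm _).trans (fc_facePerm d))

theorem isTriangulatedDisc : M.IsTriangulatedDisc := by
  intro f
  refine Quotient.inductionOn f ?_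
  intro d hd
  exact tri_face d (fun h => hd ((faceOf_eq_iff d d0).2 h))

/-! ### The embedding is 3-outerplanar -/

theorem onFace_of (v x : Fin 21) (h : x ∈ tab v) (d : G.Dart) (hd : fc (v, x) = fc d.toProd) :
    M.OnFace v (M.faceOf d) :=
  ⟨⟨(v, x), h⟩, rfl, (faceOf_eq_iff _ _).2 hd⟩

/-- The first witness table. -/
def wa : Fin 21 → Fin 21 := ![5, 0, 1, 2, 3, 4, 0, 0, 0, 0, 0, 0, 0, 0, 0, 0, 0, 0, 0, 0, 0]

theorem wa_spec : ∀ v : Fin 21, v.val < 6 → wa v ∈ tab v ∧ fc (v, wa v) = fc (0, 5) := by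
  decide +kernel

theorem mem_L3 (v : Fin 21) (hv : v.val < 6) : v ∈ M.L3 := by
  refine ⟨Set.notMem_empty v, M.outer, PlaneGraph.InOuterAfter.outer, ?_⟩
  obtain ⟨h1, h2⟩ := wa_spec v hv
  exact onFace_of v (wa v) h1 d0 h2

/-- Vertices sharing a face with a vertex of the outer hexagon. -/
theorem w2_spec : ∀ v : Fin 21, 6 ≤ v.val → v.val < 18 → ∃ o : Fin 21, o.val < 6 ∧
    ∃ x : Fin 21, x ∈ tab o ∧ ∃ y : Fin 21, y ∈ tab v ∧ fc (v, y) = fc (o, x) := by
  decide +kernel

theorem mem_L2 (v : Fin 21) (hv : 6 ≤ v.val) (hv' : v.val < 18) (h3 : v ∉ M.L3) : v ∈ M.L2 := by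
  obtain ⟨o, ho, x, hx, y, hy, hf⟩ := w2_spec v hv hv'
  refine ⟨h3, M.faceOf ⟨(o, x), hx⟩, ?_, ?_⟩
  · obtain ⟨h1, h2⟩ := wa_spec o ho
    exact PlaneGraph.InOuterAfter.step M.outer _ o PlaneGraph.InOuterAfter.outer (mem_L3 o ho)
      (onFace_of o (wa o) h1 d0 h2) ⟨⟨(o, x), hx⟩, rfl, rfl⟩
  · exact onFace_of v y hy ⟨(o, x), hx⟩ hf

theorem w1_spec : ∀ v : Fin 21, 18 ≤ v.val → ∃ t : Fin 21, 6 ≤ t.val ∧ t.val < 12 ∧
    ∃ x : Fin 21, x ∈ tab t ∧ ∃ y : Fin 21, y ∈ tab v ∧ fc (v, y) = fc (t, x) := by
  decide +kernel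

theorem mem_L1 (v : Fin 21) (hv : 18 ≤ v.val) (h3 : v ∉ M.L3) (h2 : v ∉ M.L2) : v ∈ M.L1 := by
  obtain ⟨t, ht, ht', x, hx, y, hy, hf⟩ := w1_spec v hv
  obtain ⟨o, ho, x', hx', y', hy', hf'⟩ := w2_spec t ht (by omega)
  have htm : t ∈ M.L3 ∪ M.L2 := by
    by_cases h : t ∈ M.L3
    · exact Or.inl h
    · exact Or.inr (mem_L2 t ht (by omega) h)
  refine ⟨?_, M.faceOf ⟨(t, x), hx⟩, ?_, ?_⟩
  · rintro (h | h)
    · exact h3 h
    · exact h2 h
  · obtain ⟨h1, h2⟩ := wa_spec o ho
    refine PlaneGraph.InOuterAfter.step (M.faceOf ⟨(o, x'), hx'⟩) _ t ?_ htm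
      (onFace_of t y' hy' ⟨(o, x'), hx'⟩ hf') ⟨⟨(t, x), hx⟩, rfl, rfl⟩
    exact PlaneGraph.InOuterAfter.step M.outer _ o PlaneGraph.InOuterAfter.outer
      (Or.inl (mem_L3 o ho)) (onFace_of o (wa o) h1 d0 h2) ⟨⟨(o, x'), hx'⟩, rfl, rfl⟩
  · exact onFace_of v y hy ⟨(t, x), hx⟩ hf

theorem isThreeOuterplanar : M.IsThreeOuterplanar := by
  apply Set.eq_univ_of_forall
  intro v
  by_cases h3 : v ∈ M.L3
  · exact Or.inr h3
  · by_cases h2 : v ∈ M.L2
    · exact Or.inl (Or.inr h2)
    · refine Or.inl (Or.inl ?_)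
      by_cases hv : v.val < 6
      · exact absurd (mem_L3 v hv) h3
      · by_cases hv' : v.val < 18
        · exact absurd (mem_L2 v (by omega) hv' h3) h2
        · exact mem_L1 v (by omega) h3 h2

/-! ### There is no suitable colouring -/

/-- Exploration inside a class. -/
def growIn (cls S : ℕ) : ℕ :=
  (List.range 12).foldl (fun acc v => if S.testBit v then acc ||| (am v &&& cls) else acc) S

/-- The lowest element of a class, as a mask. -/
def low (cls : ℕ) : ℕ := 2 ^ (((List.range 12).find? (fun v => cls.testBit v)).getD 0)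

/-- The component of the lowest element of a class. -/
def comp (cls : ℕ) : ℕ := (growIn cls)^[6] (low cls)

/-- The class is disconnected. -/
def disc (cls : ℕ) : Bool :=
  let S := comp cls
  (List.range 12).all (fun v => !S.testBit v || (S ||| (am v &&& cls)) == S) &&
  (List.range 12).any (fun v => cls.testBit v && S.testBit v) &&
  (List.range 12).any (fun v => cls.testBit v && !S.testBit v)

/-- Some face with an added vertex is monochromatic. -/
def mono (m : ℕ) : Bool :=
  [131, 262, 524, 1048, 2096, 97, 448, 1792, 3136].any (fun f => m &&& f == 0 || m &&& f == f)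

theorem col_check : ∀ i j : Fin 64, (mono (64 * i.val + j.val) || disc (64 * i.val + j.val) ||
    disc (4095 - (64 * i.val + j.val))) = true := by decide +kernel

theorem mono_sound (m : ℕ) (h : mono m = true) : ∃ f ∈ ([131, 262, 524, 1048, 2096, 97, 448, 1792,
    3136] : List ℕ), m &&& f = 0 ∨ m &&& f = f := by
  unfold mono at h
  rw [List.any_eq_true] at h
  obtain ⟨f, hf, hf'⟩ := h
  refine ⟨f, hf, ?_⟩
  rw [Bool.or_eq_true, beq_iff_eq, beq_iff_eq] at hf'
  exact hf'

theorem masks : ∀ k : Fin 9, ([131, 262, 524, 1048, 2096, 97, 448, 1792, 3136] : List ℕ).getD k 0 =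
    am (12 + k.val) := by decide

theorem nbr_lt : ∀ u v : Fin 21, 12 ≤ u.val → v ∈ tab u → v.val < 12 := by decide +kernel

/-- The neighbours of an added vertex are pairwise adjacent. -/
theorem nbr_adj : ∀ u v w : Fin 21, 12 ≤ u.val → v ∈ tab u → w ∈ tab u → v = w ∨ w ∈ tab v := by
  decide +kernel

theorem exists_nonadj : ∀ v : Fin 21, ∃ x : Fin 21, x ≠ v ∧ x ∉ tab v := by decide +kernel

theorem disc_sound (cls : ℕ) (h : disc cls = true) : ∃ S : ℕ,
    (∀ u v : Fin 21, u.val < 12 → S.testBit u.val = true → v ∈ tab u →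
      cls.testBit v.val = true → S.testBit v.val = true) ∧
    (∃ a : Fin 21, a.val < 12 ∧ cls.testBit a.val = true ∧ S.testBit a.val = true) ∧
    (∃ b : Fin 21, b.val < 12 ∧ cls.testBit b.val = true ∧ S.testBit b.val = false) := by
  refine ⟨comp cls, ?_, ?_, ?_⟩
  all_goals
    simp only [disc, Bool.and_eq_true, List.all_eq_true, List.any_eq_true, List.mem_range,
      Bool.or_eq_true, Bool.not_eq_true', beq_iff_eq] at h
  · intro u v hu hS hv hc
    rcases h.1.1 u.val hu with h1 | h1
    · rw [h1] at hS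
      exact absurd hS (by decide)
    · rw [← h1, Nat.testBit_or, Nat.testBit_and, hc, (am_spec u v).2 hv]
      simp
  · obtain ⟨a, ha, h1, h2⟩ := h.1.2
    exact ⟨⟨a, by omega⟩, ha, h1, h2⟩
  · obtain ⟨a, ha, h1, h2⟩ := h.2
    exact ⟨⟨a, by omega⟩, ha, h1, h2⟩

/-- A disconnected class of the twelve hexagon vertices gives a contradiction. -/
theorem disc_false (c : Fin 21 → Prop) (q : Prop)
    (hc : ∀ S : Fin 21 → Prop, (∀ x y, G.Adj x y → (c x ↔ c y) → S x → S y) →
      ∀ a b, (c a ↔ c b) → S a → S b) (cls : ℕ)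
    (hcls : ∀ v : Fin 21, v.val < 12 → (cls.testBit v.val = true ↔ (c v ↔ q)))
    (h : disc cls = true) : False := by
  obtain ⟨S, hcl, ⟨a, ha, ha1, ha2⟩, ⟨b, hb, hb1, hb2⟩⟩ := disc_sound cls h
  have hca := (hcls a ha).1 ha1
  have hcb := (hcls b hb).1 hb1
  have key := hc (fun x => (c x ↔ q) ∧ ((x.val < 12 ∧ S.testBit x.val = true) ∨
    (12 ≤ x.val ∧ ∃ z : Fin 21, z ∈ tab x ∧ (c z ↔ q) ∧ S.testBit z.val = true))) ?_ a b
    (hca.trans hcb.symm) ⟨hca, Or.inl ⟨ha, ha2⟩⟩
  · rcases key.2 with h1 | h1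
    · rw [hb2] at h1
      exact absurd h1.2 (by decide)
    · omega
  · intro x y hxy hcxy hx
    have hyx : y ∈ tab x := hxy
    have hxy' : x ∈ tab y := adj_symm _ _ hyx
    have hcy : c y ↔ q := hcxy.symm.trans hx.1
    refine ⟨hcy, ?_⟩
    rcases hx.2 with ⟨hx12, hSx⟩ | ⟨hx12, z, hz, hcz, hSz⟩
    · by_cases hy : y.val < 12
      · exact Or.inl ⟨hy, hcl x y hx12 hSx hyx ((hcls y hy).2 hcy)⟩
      · exact Or.inr ⟨by omega, x, hxy', hx.1, hSx⟩
    · have hy : y.val < 12 := nbr_lt x y hx12 hyx
      have hz12 : z.val < 12 := nbr_lt x z hx12 hz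
      left
      refine ⟨hy, ?_⟩
      rcases nbr_adj x z y hx12 hz hyx with h1 | h1
      · rw [← h1]
        exact hSz
      · exact hcl z y hz12 hSz h1 ((hcls y hy).2 hcy)

theorem no_cists : ¬ ∃ T₁ T₂ : SimpleGraph (Fin 21), AreCISTs G T₁ T₂ := by
  classical
  rintro ⟨T₁, T₂, h⟩
  obtain ⟨c, hc1, hc2⟩ := cist_colour h
  let f : Fin 12 → Bool := fun v => decide (c (v.castLE (by norm_num)))
  let m : ℕ := Nat.ofBits f
  have hm : m < 2 ^ 12 := Nat.ofBits_lt_two_pow f
  have hbit : ∀ v : Fin 21, v.val < 12 → (m.testBit v.val = true ↔ c v) := by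
    intro v hv
    have h1 : m.testBit v.val = f ⟨v.val, hv⟩ := Nat.testBit_ofBits_lt f v.val hv
    rw [h1, decide_eq_true_iff]
    exact Iff.rfl
  have hchk := col_check ⟨m / 64, by omega⟩ ⟨m % 64, Nat.mod_lt _ (by norm_num)⟩
  have hdm : 64 * (m / 64) + m % 64 = m := Nat.div_add_mod m 64
  simp only [hdm, Bool.or_eq_true] at hchk
  rcases hchk with (hmono | hd) | hd
  · obtain ⟨g, hg, hg'⟩ := mono_sound m hmono
    obtain ⟨k, hk, hk'⟩ := List.mem_iff_getElem.1 hg
    have hk9 : k < 9 := hk
    have hgk : g = am (12 + k) := by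
      have h1 := masks ⟨k, hk9⟩
      rw [← h1, ← hk']
      exact (List.getD_eq_getElem _ _ hk).symm
    let u : Fin 21 := ⟨12 + k, by omega⟩
    have hu : 12 ≤ u.val := Nat.le_add_right 12 k
    obtain ⟨x, hx1, hx2⟩ := exists_nonadj u
    obtain ⟨⟨w, hw, hcw⟩, ⟨w', hw', hcw'⟩⟩ := hc1 u x hx1 hx2
    have hwl := nbr_lt u w hu hw
    have hwl' := nbr_lt u w' hu hw'
    have b1 : g.testBit w.val = true := by
      rw [hgk]
      exact (am_spec u w).2 hw
    have b2 : g.testBit w'.val = true := by
      rw [hgk]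
      exact (am_spec u w').2 hw'
    rcases hg' with h0 | h0
    · have h1 : (m &&& g).testBit w.val = true := by
        rw [Nat.testBit_and, b1, (hbit w hwl).2 hcw]
        rfl
      rw [h0, Nat.zero_testBit] at h1
      exact absurd h1 (by decide)
    · have h1 : (m &&& g).testBit w'.val = true := by
        rw [h0]
        exact b2
      rw [Nat.testBit_and, Bool.and_eq_true] at h1
      exact hcw' ((hbit w' hwl').1 h1.1)
  · refine disc_false c True hc2 m ?_ hd
    intro v hv
    rw [hbit v hv, iff_true]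
  · refine disc_false c False hc2 (4095 - m) ?_ hd
    intro v hv
    have h1 : (2 ^ 12 - (m + 1)).testBit v.val = (decide (v.val < 12) && !m.testBit v.val) :=
      Nat.testBit_two_pow_sub_succ hm v.val
    have h2 : 4095 - m = 2 ^ 12 - (m + 1) := by omega
    rw [h2, h1, decide_eq_true hv, Bool.true_and, Bool.not_eq_true', iff_false, ← hbit v hv,
      Bool.not_eq_true]

/-- Some 3-connected triangulated disc with a 3-outerplanar embedding has no two completely
independent spanning trees. -/
theorem result : ∃ (n : ℕ) (M : PlaneGraph (Fin n)), M.IsTriangulatedDisc ∧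
    IsThreeConnected M.graph ∧ M.IsThreeOuterplanar ∧
    ¬ ∃ T₁ T₂ : SimpleGraph (Fin n), AreCISTs M.graph T₁ T₂ :=
  ⟨21, M, isTriangulatedDisc, threeConnected, isThreeOuterplanar, no_cists⟩

end Pool.Agent.Results.MP_6a18d8_co.NoCIST
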